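import Pool.Agent.X108.BM.Main

/-!
# Means of the solutions of the functional equation of Berg and Meinardus

The solutions `h` of the Berg-Meinardus equation in the unit disc are the power series whose coefficients are constant along
the trajectories of the Collatz map; the trivial solutions are `c₀ + m z / (1 - z)`, and the Collatz conjecture holds
if and only if there are no others. For every nontrivial solution the quadratic means over circles of the distance to
`m z / (1 - z)` are at least `κ / (1 - r)`; for the solutions with bounded coefficients the limits `m` and `V` of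
`(1 - r) h(r)` and of `(1 - r²)` times the quadratic mean of `h` exist, `|m|² ≤ V`, and there is equality exactly for the
trivial solutions. So the Collatz conjecture is equivalent to the equality `V = |m|²` for all these solutions.

The lower bound for the quadratic means and the limits of the means of bounded invariant sequences are from the starting
files (`Pool.Agent.H723R2.BMGrow`, `Pool.Agent.H499R2.NDBM`), where no hand-in uses them. New here are the
passage to the quadratic means over circles (Parseval), the bounds for `V`, the converse construction of solutions from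
bounded invariant sequences and the equivalence with the Collatz conjecture.
-/

set_option autoImplicit false

namespace Pool.Agent.Results.MP_d02c56_nt.BergMeinardusMeans

open Filter Topology

/-- The Collatz map on the integers. -/
def C (x : ℤ) : ℤ := if x % 2 = 0 then x / 2 else 3 * x + 1

/-- The primitive cube root of unity `e^{2πi/3}`. -/
noncomputable def ω : ℂ := Complex.exp (2 * Real.pi * Complex.I / 3)

/-- `h` is holomorphic in the open unit disc and solves there the functional equation of Berg and Meinardus: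
`h(z³) = h(z⁶) + (h(z²) + ω h(ω z²) + ω² h(ω² z²)) / (3z)`, written without the denominator. -/
def Solution (h : ℂ → ℂ) : Prop :=
  DifferentiableOn ℂ h (Metric.ball 0 1) ∧
  ∀ z : ℂ, ‖z‖ < 1 →
    3 * z * (h (z ^ 3) - h (z ^ 6)) = h (z ^ 2) + ω * h (ω * z ^ 2) + ω ^ 2 * h (ω ^ 2 * z ^ 2)

/-- `h` is, in the open unit disc, the trivial solution `c₀ + m z / (1 - z)`, for some `c₀`. -/
def IsTrivial (h : ℂ → ℂ) (m : ℂ) : Prop := ∃ c₀ : ℂ, ∀ z : ℂ, ‖z‖ < 1 → h z = c₀ + m * (z / (1 - z))

/-- The Taylor coefficients of `h` at `0`, from the first one on, have absolute value at most `M`. -/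
def CoeffBound (h : ℂ → ℂ) (M : ℝ) : Prop := ∀ n : ℕ, 1 ≤ n → ‖iteratedDeriv n h 0‖ ≤ M * n.factorial

/-- The quadratic mean of `f` over the circle of radius `r`. -/
noncomputable def quad (f : ℂ → ℂ) (r : ℝ) : ℝ :=
  (2 * Real.pi)⁻¹ * ∫ θ : ℝ in (0 : ℝ)..(2 * Real.pi), ‖f ((r : ℂ) * Complex.exp ((θ : ℂ) * Complex.I))‖ ^ 2

/-- `(1 - r) h(r) → m` as `r → 1-`. -/
def HasMean (h : ℂ → ℂ) (m : ℂ) : Prop := Tendsto (fun r : ℝ => (1 - (r : ℂ)) * h r) (𝓝[<] (1 : ℝ)) (𝓝 m)

/-- `(1 - r²)` times the quadratic mean of `h` over the circle of radius `r` tends to `V` as `r → 1-`. -/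
def HasQuad (h : ℂ → ℂ) (V : ℝ) : Prop := Tendsto (fun r : ℝ => (1 - r ^ 2) * quad h r) (𝓝[<] (1 : ℝ)) (𝓝 V)

/-- (1) Let `h` be a solution of the Berg-Meinardus equation and `m` a complex number. Unless
`h = c₀ + m z / (1 - z)`, the quadratic means of `h - m z / (1 - z)` over the circles of radius `r` are at least
`κ / (1 - r)` for all `r` near `1`, for some `κ > 0`.
(2) Let the coefficients of the solution `h` be bounded by `M`. Then the limits `m` of `(1 - r) h(r)` and `V` of
`(1 - r²)` times the quadratic mean exist, `|m|² ≤ V ≤ M²`, there is equality `V = |m|²` exactly if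
`h = c₀ + m z / (1 - z)`, and this holds also if `|m| = M`; moreover `(1 - r) h(r ζ) → 0` for all `ζ ≠ 1` with
`|ζ| = 1`.
(3) All positive Collatz trajectories reach `1` if and only if `V = |m|²` for all solutions with bounded
coefficients. -/
theorem result :
    (∀ h : ℂ → ℂ, Solution h → ∀ m : ℂ, ¬ IsTrivial h m → ∃ κ : ℝ, 0 < κ ∧
      ∀ᶠ r : ℝ in 𝓝[<] (1 : ℝ), κ / (1 - r) ≤ quad (fun z => h z - m * (z / (1 - z))) r) ∧
    (∀ (h : ℂ → ℂ) (M : ℝ), Solution h → CoeffBound h M → ∃ (m : ℂ) (V : ℝ),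
      HasMean h m ∧ HasQuad h V ∧ ‖m‖ ^ 2 ≤ V ∧ V ≤ M ^ 2 ∧ (V = ‖m‖ ^ 2 ↔ IsTrivial h m) ∧
      (‖m‖ = M → IsTrivial h m) ∧
      ∀ ζ : ℂ, ‖ζ‖ = 1 → ζ ≠ 1 → Tendsto (fun r : ℝ => (1 - (r : ℂ)) * h (r * ζ)) (𝓝[<] (1 : ℝ)) (𝓝 0)) ∧
    ((∀ x : ℤ, 1 ≤ x → ∃ k : ℕ, C^[k] x = 1) ↔
      ∀ (h : ℂ → ℂ) (M : ℝ) (m : ℂ) (V : ℝ), Solution h → CoeffBound h M → HasMean h m → HasQuad h V →
        V = ‖m‖ ^ 2) := by
  have hC : C = Pool.Agent.X108.BM.C := rfl
  have hinv : ∀ h : ℂ → ℂ, Solution h → Pool.Agent.H397R2.CInv (Pool.Agent.H397R2.tc h) := fun h hs =>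
    Pool.Agent.H397R2.cinv_of_bm (fun z hz => Pool.Agent.H397R2.hasSum_tc hs.1 hz) hs.2
  have hcoef : ∀ (h : ℂ → ℂ) (M : ℝ), CoeffBound h M → ∀ n : ℕ, 1 ≤ n →
      ‖Pool.Agent.H397R2.tc h n‖ ≤ M := by
    intro h M hM n hn
    have h1 := hM n hn
    have hf : (0 : ℝ) < n.factorial := by exact_mod_cast n.factorial_pos
    unfold Pool.Agent.H397R2.tc
    rw [norm_mul, norm_inv, Complex.norm_natCast, inv_mul_le_iff₀ hf, mul_comm]
    exact h1
  have hquad : ∀ (f : ℂ → ℂ) (r : ℝ), quad f r = (2 * Real.pi)⁻¹ *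
      ∫ θ in (0 : ℝ)..(2 * Real.pi), ‖f (Pool.Agent.H397R2.cp r θ)‖ ^ 2 := fun f r => rfl
  have h2 : ∀ (h : ℂ → ℂ) (M : ℝ), Solution h → CoeffBound h M → ∃ (m : ℂ) (V : ℝ),
      HasMean h m ∧ HasQuad h V ∧ ‖m‖ ^ 2 ≤ V ∧ V ≤ M ^ 2 ∧ (V = ‖m‖ ^ 2 ↔ IsTrivial h m) := by
    intro h M hs hM
    obtain ⟨m, V, a1, a2, a3, a4, a5⟩ :=
      Pool.Agent.X108.BM.quadratic hs.1 (hinv h hs) (hcoef h M hM)
    exact ⟨m, V, a1, a2, a3, a4, a5.trans (Pool.Agent.X108.BM.triv_iff hs.1)⟩
  refine ⟨?_, ?_, ?_⟩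
  · intro h hs m hm
    obtain h3 | ⟨κ, hκ, h4⟩ := Pool.Agent.H723R2.BMGrow.part1 hs.1 (hinv h hs) m
    · exact absurd h3 hm
    · refine ⟨(2 * Real.pi)⁻¹ * κ, by have := Real.pi_pos; positivity, ?_⟩
      filter_upwards [h4, self_mem_nhdsWithin] with r hr hr1
      have h1r : 0 < 1 - r := by
        have : r < 1 := hr1
        linarith
      rw [hquad, div_le_iff₀ h1r, mul_assoc]
      refine mul_le_mul_of_nonneg_left ?_ (by have := Real.pi_pos; positivity)
      rw [mul_comm]
      exact hr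
  · intro h M hs hM
    obtain ⟨m, V, a1, a2, a3, a4, a5⟩ := h2 h M hs hM
    obtain ⟨m', b1, -, b3, b4⟩ := Pool.Agent.H723R2.BMGrow.part2 hs.1 (hinv h hs) (hcoef h M hM)
    have e : m' = m := tendsto_nhds_unique b1 a1
    subst e
    exact ⟨m', V, a1, a2, a3, a4, a5, b3, b4⟩
  · constructor
    · intro hcol h M m V hs hM hm hV
      obtain ⟨m', V', a1, a2, a3, a4, a5⟩ := h2 h M hs hM
      have e1 : m = m' := tendsto_nhds_unique hm a1
      have e2 : V = V' := tendsto_nhds_unique hV a2
      subst e1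
      subst e2
      -- all the coefficients are equal
      have hall : ∀ n : ℕ, 1 ≤ n → Pool.Agent.H397R2.tc h n = Pool.Agent.H397R2.tc h 1 := by
        intro n hn
        obtain ⟨k, hk⟩ := hcol n (by exact_mod_cast hn)
        exact Pool.Agent.X108.BM.cinv_reach (hinv h hs) k n hn hk
      obtain ⟨c₀, hc₀⟩ := (Pool.Agent.X108.BM.triv_iff hs.1).1 hall
      -- the mean of the trivial solution
      obtain ⟨m₁, V₁, c1, c2, c3, c4, c5⟩ := Pool.Agent.X108.BM.quadratic hs.1 (hinv h hs)
        (M := ‖Pool.Agent.H397R2.tc h 1‖) (fun n hn => by rw [hall n hn])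
      have e1 : m₁ = m := tendsto_nhds_unique c1 hm
      have e2 : V₁ = V := tendsto_nhds_unique c2 hV
      subst e1
      subst e2
      have hlim : Tendsto (fun r : ℝ => (1 - (r : ℂ)) * c₀ + Pool.Agent.H397R2.tc h 1 * r) (𝓝[<] (1 : ℝ))
          (𝓝 ((1 - ((1 : ℝ) : ℂ)) * c₀ + Pool.Agent.H397R2.tc h 1 * ((1 : ℝ) : ℂ))) := by
        refine Tendsto.mono_left ?_ nhdsWithin_le_nhds
        exact (((continuous_const.sub Complex.continuous_ofReal).mul continuous_const).add
          (continuous_const.mul Complex.continuous_ofReal)).tendsto 1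
      rw [Complex.ofReal_one, sub_self, zero_mul, zero_add, mul_one] at hlim
      have e3 : m₁ = Pool.Agent.H397R2.tc h 1 := by
        refine tendsto_nhds_unique c1 (hlim.congr' ?_)
        filter_upwards [Pool.Agent.H723R2.BMGrow.ev_near] with r hr
        have h0r : ‖(r : ℂ)‖ < 1 := by
          rw [Complex.norm_real, Real.norm_eq_abs, abs_of_pos (by linarith [hr.1])]
          exact hr.2
        have hne : (1 : ℂ) - r ≠ 0 := by
          intro h0
          have : (r : ℂ) = 1 := (sub_eq_zero.1 h0).symm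
          rw [this, norm_one] at h0r
          exact lt_irrefl _ h0r
        rw [hc₀ _ h0r]
        field_simp
      rw [e3]
      refine le_antisymm c4 ?_
      rw [← e3]
      exact c3
    · intro H x hx
      obtain ⟨n, rfl⟩ : ∃ n : ℕ, x = n := ⟨x.toNat, by omega⟩
      have hn : 1 ≤ n := by exact_mod_cast hx
      have hs : Solution (Pool.Agent.X108.BM.gen Pool.Agent.X108.BM.ind) :=
        ⟨Pool.Agent.X108.BM.gen_diff Pool.Agent.X108.BM.ind_norm, fun z hz =>
          Pool.Agent.X108.BM.gen_solves Pool.Agent.X108.BM.ind_norm Pool.Agent.X108.BM.ind_cinv hz⟩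
      have htc := Pool.Agent.X108.BM.gen_tc Pool.Agent.X108.BM.ind_norm
      have hb : CoeffBound (Pool.Agent.X108.BM.gen Pool.Agent.X108.BM.ind) 1 := by
        intro k _
        have h1 := htc k
        have hf : (k.factorial : ℂ) ≠ 0 := by exact_mod_cast k.factorial_ne_zero
        unfold Pool.Agent.H397R2.tc at h1
        rw [inv_mul_eq_iff_eq_mul₀ hf] at h1
        rw [h1, norm_mul, Complex.norm_natCast, mul_comm]
        exact mul_le_mul_of_nonneg_right (Pool.Agent.X108.BM.ind_norm k) (Nat.cast_nonneg _)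
      obtain ⟨m, V, a1, a2, a3, a4, a5⟩ := h2 _ 1 hs hb
      have hV := H _ 1 m V hs hb a1 a2
      have h6 := (Pool.Agent.X108.BM.triv_iff hs.1).2 (a5.1 hV)
      have h7 : Pool.Agent.X108.BM.ind 1 = m := by rw [← htc 1]; exact h6 1 le_rfl
      have h8 : Pool.Agent.X108.BM.ind n = m := by rw [← htc n]; exact h6 n hn
      have h9 : Pool.Agent.X108.BM.ind 1 = 1 := by
        unfold Pool.Agent.X108.BM.ind
        rw [if_pos]
        exact ⟨le_rfl, 0, by simp⟩
      have h10 : Pool.Agent.X108.BM.ind n = 1 := by rw [h8, ← h7, h9]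
      by_contra hcon
      have : Pool.Agent.X108.BM.ind n = 0 := by
        unfold Pool.Agent.X108.BM.ind
        rw [if_neg]
        rintro ⟨-, k, hk⟩
        exact hcon ⟨k, hk⟩
      rw [this] at h10
      exact zero_ne_one h10

end Pool.Agent.Results.MP_d02c56_nt.BergMeinardusMeans
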