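import Mathlib
import Pool.Agent.X61.CU.Map

set_option autoImplicit false

/-!
# Perfect powers are rare on the trajectories and on the cycles of the Collatz map

Let `n ≥ 2` and let `S` be a finite set of primes. The odd terms of the form `s y ^ n`, where `y` is an
integer and all prime factors of `s` are in `S`, have density zero in every trajectory of the Collatz
map on the integers which is not eventually periodic, and their proportion is at most `ε` on all but
finitely many cycles. The same holds for the terms `z` for which `den(r) z - num(r)` is of this form, if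
`r` is a rational number fixed by no nonempty composition of the maps `z / 2` and `3 z + 1`.
-/

namespace Pool.Agent.Results.MP_d02c56_nt.PerfectPowers

open Filter Topology

/-- The Collatz map on the integers. -/
def C (x : ℤ) : ℤ := if x % 2 = 0 then x / 2 else 3 * x + 1

/-- `Z` is a cycle of `C`. -/
def IsCycle (Z : Finset ℤ) : Prop :=
  ∃ (x : ℤ) (p : ℕ), 1 ≤ p ∧ C^[p] x = x ∧ Z = (Finset.range p).image fun i => C^[i] x

/-- `z = s * y ^ n` for integers `s ≠ 0` and `y`, where all prime factors of `s` are in `S`. -/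
def PowerTimesUnit (S : Finset ℕ) (n : ℕ) (z : ℤ) : Prop :=
  ∃ s y : ℤ, (s ≠ 0 ∧ ∀ p : ℕ, p.Prime → (p : ℤ) ∣ s → p ∈ S) ∧ z = s * y ^ n

/-- The two branches `z / 2` and `3 z + 1` of the Collatz map, on the rational numbers. -/
def branch (z : ℚ) (odd : Bool) : ℚ := if odd then 3 * z + 1 else z / 2

/-- `A` is one of the following sets: the odd integers which are products of an integer with all prime
factors in `S` and an `n`-th power; for a rational number `r` which is not fixed by any nonempty
composition of the two branches, the integers `z` such that `r.den * z - r.num` is such a product. -/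
def Admissible (S : Finset ℕ) (n : ℕ) (A : Set ℤ) : Prop :=
  A = {z | z % 2 = 1 ∧ PowerTimesUnit S n z} ∨
  ∃ r : ℚ, (∀ w : List Bool, w ≠ [] → w.foldl branch r ≠ r) ∧
    A = {z | PowerTimesUnit S n (r.den * z - r.num)}

/-- The number of indices `k < N` with `C^[k] x ∈ A`. -/
noncomputable def visits (A : Set ℤ) (x : ℤ) (N : ℕ) : ℕ := {k : ℕ | k < N ∧ C^[k] x ∈ A}.ncard

open Pool.Agent.X61.CU

/-- the Collatz map as a map with affine branches -/
def M : PA Bool where
  f := C
  br x := decide (x % 2 = 1)
  al b := if b then 3 else 1 / 2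
  be b := if b then 1 else 0
  ne b := by cases b <;> norm_num
  eq x := by
    unfold C
    rcases Int.emod_two_eq_zero_or_one x with h | h
    · have h1 : ¬ x % 2 = 1 := by omega
      rw [if_pos h, decide_eq_false h1]
      obtain ⟨y, rfl⟩ : (2 : ℤ) ∣ x := Int.dvd_of_emod_eq_zero h
      rw [Int.mul_ediv_cancel_left _ (by norm_num)]
      push_cast
      simp
    · have h1 : ¬ x % 2 = 0 := by omega
      rw [if_neg h1, decide_eq_true h]
      push_cast
      simp

theorem visits_eq (A : Set ℤ) (x : ℤ) (N : ℕ) : visits A x N = cnt C (fun z => z ∈ A) x N := by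
  classical
  unfold visits cnt
  rw [← Set.ncard_coe_finset]
  congr 1
  ext k
  simp

theorem fold_eq (w : ℕ → Bool) (k : ℕ) : ∃ L : List Bool, L.length = k ∧
    ∀ z : ℚ, L.foldl branch z = M.sl w k * z + M.co w k := by
  induction k with
  | zero => exact ⟨[], rfl, fun z => by simp [PA.sl, PA.co]⟩
  | succ k ih =>
    obtain ⟨L, h1, h2⟩ := ih
    refine ⟨L ++ [w k], by rw [List.length_append, h1]; rfl, fun z => ?_⟩
    rw [List.foldl_append, h2]
    simp only [List.foldl_cons, List.foldl_nil, PA.sl, PA.co, branch, M]
    cases w k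
    · simp only [Bool.false_eq_true, if_false]
      ring
    · simp only [if_true]
      ring

theorem free_zero : M.Free (fun z => z % 2 = 1) 0 := by
  intro x k hx _ hk
  have h : ∀ k : ℕ, 0 < M.co (M.wd x) (k + 1) := by
    intro k
    induction k with
    | zero =>
      have h1 : M.wd x 0 = true := by
        show decide (x % 2 = 1) = true
        exact decide_eq_true hx
      have e : M.co (M.wd x) 1 = 1 := by
        show M.al (M.wd x 0) * 0 + M.be (M.wd x 0) = 1
        rw [h1]
        simp only [M, if_true]
        norm_num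
      rw [e]
      exact one_pos
    | succ k ih =>
      rw [PA.co]
      cases M.wd x (k + 1)
      · have e : M.al false * M.co (M.wd x) (k + 1) + M.be false = M.co (M.wd x) (k + 1) / 2 := by
          simp only [M, Bool.false_eq_true, if_false]
          ring
        rw [e]
        linarith
      · have e : M.al true * M.co (M.wd x) (k + 1) + M.be true = 3 * M.co (M.wd x) (k + 1) + 1 := by
          simp only [M, if_true]
        rw [e]
        linarith
  obtain ⟨j, rfl⟩ : ∃ j, k = j + 1 := ⟨k - 1, by omega⟩
  rw [mul_zero, zero_add]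
  exact (h j).ne'

theorem window_all {S : Finset ℕ} (hS : ∀ p ∈ S, p.Prime) {n : ℕ} (hn : 2 ≤ n) {A : Set ℤ}
    (hA : Admissible S n A) (J : ℕ) : {x : ℤ | 2 < cnt C (fun z => z ∈ A) x J}.Finite := by
  have key : {x : ℤ | ∃ i j k : ℕ, i < j ∧ j < k ∧ k < J ∧ C^[i] x ∈ A ∧ C^[j] x ∈ A ∧
      C^[k] x ∈ A}.Finite := by
    rcases hA with rfl | ⟨r, hr, rfl⟩
    · refine PA.window M free_zero n hn S hS _ ?_ J
      rintro z ⟨h1, s, y, h2, h3⟩
      refine ⟨h1, s, y, h2, ?_⟩
      simpa using h3
    · refine PA.window M (Q := fun _ => True) (r := r) ?_ n hn S hS _ (fun z hz => ⟨trivial, hz⟩) J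
      intro x k _ _ hk h1
      obtain ⟨L, h2, h3⟩ := fold_eq (M.wd x) k
      refine hr L ?_ (by rw [h3, h1])
      intro h4
      rw [h4, List.length_nil] at h2
      omega
  exact key.subset fun x hx => three_of_cnt hx

/-- **Theorem.** Let `n ≥ 2`, let `S` be a finite set of primes and let `A` be the set of the odd
integers of the form `s * y ^ n` (all prime factors of `s` in `S`), or the set of the integers `z` such
that `r.den * z - r.num` is of this form, where the rational number `r` is not fixed by any nonempty
composition of `z / 2` and `3 z + 1`.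

(1) For every `ε > 0` there is a finite set `F` of integers such that every integer `x` whose trajectory
under the Collatz map does not meet `F` satisfies, for all `N`: at most `ε N + 2` of the first `N` terms
of the trajectory are in `A`.

(2) For every `ε > 0` all but finitely many cycles `Z` have at most `ε |Z|` elements in `A`.

(3) In every trajectory which is not eventually periodic the terms in `A` have density zero. -/
theorem result (n : ℕ) (hn : 2 ≤ n) (S : Finset ℕ) (hS : ∀ p ∈ S, p.Prime) (A : Set ℤ)
    (hA : Admissible S n A) :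
    (∀ ε : ℝ, 0 < ε → ∃ F : Finset ℤ, ∀ x : ℤ, (∃ k : ℕ, C^[k] x ∈ F) ∨
      ∀ N : ℕ, (visits A x N : ℝ) ≤ ε * N + 2) ∧
    (∀ ε : ℝ, 0 < ε →
      {Z : Finset ℤ | IsCycle Z ∧ ε * Z.card < (((Z : Set ℤ) ∩ A).ncard : ℝ)}.Finite) ∧
    ∀ x : ℤ, (∀ i j : ℕ, C^[i] x = C^[j] x → i = j) →
      Tendsto (fun N : ℕ => (visits A x N : ℝ) / N) atTop (𝓝 0) := by
  classical
  have h1 : ∀ ε : ℝ, 0 < ε → ∃ F : Finset ℤ, ∀ x : ℤ, (∃ k : ℕ, C^[k] x ∈ F) ∨
      ∀ N : ℕ, (cnt C (fun z => z ∈ A) x N : ℝ) ≤ ε * N + ((2 : ℕ) : ℝ) :=
    fun ε hε => rare_traj (window_all hS hn hA) ε hε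
  refine ⟨fun ε hε => ?_, fun ε hε => ?_, fun x hx => ?_⟩
  · obtain ⟨F, hF⟩ := h1 ε hε
    refine ⟨F, fun x => (hF x).imp id fun h N => ?_⟩
    rw [visits_eq]
    have := h N
    push_cast at this
    exact this
  · refine (rare_cyc h1 ε hε).subset ?_
    rintro Z ⟨hZ, hlt⟩
    refine ⟨hZ, lt_of_lt_of_eq hlt ?_⟩
    have e : (Z : Set ℤ) ∩ A = ((Z.filter fun z => z ∈ A : Finset ℤ) : Set ℤ) := by
      ext z
      simp
    rw [e, Set.ncard_coe_finset]
  · refine (rare_inj h1 x hx).congr fun N => ?_
    rw [visits_eq]

end Pool.Agent.Results.MP_d02c56_nt.PerfectPowers
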