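import Mathlib
import Pool.Agent.X61.CU.PolyW

set_option autoImplicit false

/-!
# Values of polynomials on the trajectories and cycles of the Collatz map have small smooth parts

Let `g` be an irreducible polynomial with integer coefficients and degree at least two, `S` a finite set
of primes and `ε > 0`. Along every trajectory of the Collatz map on the integers which avoids a certain
finite set, and on all but finitely many cycles, the part composed of primes in `S` of the product of the
values of `g` is bounded by the `ε`-th power of the product of the terms.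
-/

namespace Pool.Agent.Results.MP_d02c56_nt.SmoothPartOfPolynomials

open Filter Topology Polynomial

/-- The Collatz map on the integers. -/
def C (x : ℤ) : ℤ := if x % 2 = 0 then x / 2 else 3 * x + 1

/-- `Z` is a cycle of `C`. -/
def IsCycle (Z : Finset ℤ) : Prop :=
  ∃ (x : ℤ) (p : ℕ), 1 ≤ p ∧ C^[p] x = x ∧ Z = (Finset.range p).image fun i => C^[i] x

/-- The largest divisor of the nonzero integer `n` all of whose prime factors are in `S`; the value
is `1` for `n = 0`. -/
def smoothPart (S : Finset ℕ) (n : ℤ) : ℕ := ∏ p ∈ S, p ^ padicValNat p n.natAbs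

open Pool.Agent.X61.CU

/-- the Collatz map as a map with affine branches -/
def M : PA Bool where
  f := C
  br x := decide (x % 2 = 1)
  al b := if b then 3 else 1 / 2
  be b := if b then 1 else 0
  ne b := by cases b <;> norm_num
  eq x := by
    unfold C
    rcases Int.emod_two_eq_zero_or_one x with h | h
    · have h1 : ¬ x % 2 = 1 := by omega
      rw [if_pos h, decide_eq_false h1]
      obtain ⟨y, rfl⟩ : (2 : ℤ) ∣ x := Int.dvd_of_emod_eq_zero h
      rw [Int.mul_ediv_cancel_left _ (by norm_num)]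
      push_cast
      simp
    · have h1 : ¬ x % 2 = 0 := by omega
      rw [if_neg h1, decide_eq_true h]
      push_cast
      simp

theorem al_false : M.al false = 1 / 2 := by simp [M]

theorem al_true : M.al true = 3 := by simp [M]

theorem slope (w : ℕ → Bool) (k : ℕ) : ∃ u v : ℕ, u + v = k ∧ M.sl w k = 3 ^ u / 2 ^ v := by
  induction k with
  | zero => exact ⟨0, 0, rfl, by simp [PA.sl]⟩
  | succ k ih =>
    obtain ⟨u, v, h1, h2⟩ := ih
    have e : M.sl w (k + 1) = M.al (w k) * M.sl w k := rfl
    rw [e, h2]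
    cases w k
    · refine ⟨u, v + 1, by omega, ?_⟩
      rw [al_false, pow_succ]
      field_simp
    · refine ⟨u + 1, v, by omega, ?_⟩
      rw [al_true, pow_succ]
      field_simp

theorem slope_ne (w : ℕ → Bool) (k : ℕ) (hk : 1 ≤ k) : |M.sl w k| ≠ 1 := by
  obtain ⟨u, v, h1, h2⟩ := slope w k
  rw [h2, abs_of_pos (by positivity), Ne, div_eq_one_iff_eq (by positivity)]
  intro h
  have h3 : (3 : ℕ) ^ u = 2 ^ v := by exact_mod_cast h
  rcases Nat.eq_zero_or_pos v with hv | hv
  · subst hv
    have h4 : 3 ^ 1 ≤ 3 ^ u := Nat.pow_le_pow_right (by norm_num) (by omega)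
    omega
  · have h4 : 2 ∣ 3 ^ u := by
      rw [h3]
      exact dvd_pow_self 2 (by omega)
    have h5 := Nat.prime_two.dvd_of_dvd_pow h4
    omega

theorem up (x : ℤ) (hx : x ≠ 0) : |(C x : ℝ)| ≤ 4 * |(x : ℝ)| := by
  have h : |C x| ≤ 4 * |x| := by
    unfold C
    split_ifs with h1
    · rw [abs_le]
      constructor <;> (have := abs_nonneg x; have := le_abs_self x; have := neg_abs_le x; omega)
    · rw [abs_le]
      have : 1 ≤ |x| := Int.one_le_abs hx
      constructor <;> (have := le_abs_self x; have := neg_abs_le x; omega)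
  exact_mod_cast h

theorem lo (x : ℤ) (hx : x ≠ 0) : |(x : ℝ)| ≤ 4 * |(C x : ℝ)| := by
  have h : |x| ≤ 4 * |C x| := by
    unfold C
    split_ifs with h1
    · obtain ⟨y, rfl⟩ : (2 : ℤ) ∣ x := Int.dvd_of_emod_eq_zero h1
      rw [Int.mul_ediv_cancel_left _ (by norm_num), abs_mul]
      have := abs_nonneg y
      have h2 : |(2 : ℤ)| = 2 := rfl
      rw [h2]
      omega
    · rcases abs_cases x with h2 | h2 <;> rcases abs_cases (3 * x + 1) with h3 | h3 <;> omega
  exact_mod_cast h

theorem part_ge {S : Finset ℕ} (hS : ∀ p ∈ S, p.Prime) (n : ℤ) : (1 : ℝ) ≤ smoothPart S n := by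
  exact_mod_cast part_pos hS n

theorem zero_fix (k : ℕ) : C^[k] 0 = 0 := by
  induction k with
  | zero => rfl
  | succ k ih =>
    rw [Function.iterate_succ_apply', ih]
    rfl

/-- **Theorem.** Let `g` be a polynomial with integer coefficients, irreducible over the rational
numbers and of degree at least two, let `S` be a finite set of primes and `ε > 0`.

(1) There is a finite set `F` of integers such that every integer `x` whose trajectory under the Collatz
map does not meet `F` satisfies, for all `N`: the part composed of primes in `S` of the product of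
the numbers `g (C^[k] x)`, `k < N`, is at most `|x| ^ 4 * (∏ k < N, |C^[k] x|) ^ ε`.

(2) For all but finitely many cycles `Z` the part composed of primes in `S` of the product of the numbers
`g z`, `z ∈ Z`, is at most `(∏ z ∈ Z, |z|) ^ ε`.

(3) If the trajectory of `x` is not eventually periodic, then for all large `N` the part composed of
primes in `S` of the product of the numbers `g (C^[k] x)`, `k < N`, is at most
`(∏ k < N, |C^[k] x|) ^ ε`. -/
theorem result (g : ℤ[X]) (hg : Irreducible (g.map (Int.castRingHom ℚ))) (hd : 2 ≤ g.natDegree)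
    (S : Finset ℕ) (hS : ∀ p ∈ S, p.Prime) (ε : ℝ) (hε : 0 < ε) :
    (∃ F : Finset ℤ, ∀ x : ℤ, (∃ k : ℕ, C^[k] x ∈ F) ∨
      ∀ N : ℕ, ∏ k ∈ Finset.range N, (smoothPart S (g.eval (C^[k] x)) : ℝ) ≤
        |(x : ℝ)| ^ 4 * (∏ k ∈ Finset.range N, |(C^[k] x : ℝ)|) ^ ε) ∧
    {Z : Finset ℤ | IsCycle Z ∧
      (∏ z ∈ Z, |(z : ℝ)|) ^ ε < ∏ z ∈ Z, (smoothPart S (g.eval z) : ℝ)}.Finite ∧
    ∀ x : ℤ, (∀ i j : ℕ, C^[i] x = C^[j] x → i = j) →
      ∀ᶠ N : ℕ in atTop, ∏ k ∈ Finset.range N, (smoothPart S (g.eval (C^[k] x)) : ℝ) ≤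
        (∏ k ∈ Finset.range N, |(C^[k] x : ℝ)|) ^ ε := by
  set h : ℤ → ℝ := fun z => Real.log (smoothPart S (g.eval z)) with hh
  have hh0 : ∀ z, 0 ≤ h z := fun z => Real.log_nonneg (part_ge hS _)
  have H : ∀ ε : ℝ, 0 < ε → ∃ F : Finset ℤ, ∀ x : ℤ, (∃ k : ℕ, C^[k] x ∈ F) ∨
      ∀ N : ℕ, ∑ k ∈ Finset.range N, h (C^[k] x) ≤
        ε * ∑ k ∈ Finset.range N, Real.log |(C^[k] x : ℝ)| + 4 * Real.log |(x : ℝ)| :=
    fun ε hε => sum_traj (A := 4) (by norm_num) (by norm_num) hh0 up lo
      (fun J => window_poly M slope_ne hg hd S hS J) ε hε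
  have hprod : ∀ (I : Finset ℤ), Real.log (∏ z ∈ I, (smoothPart S (g.eval z) : ℝ)) =
      ∑ z ∈ I, h z := fun I => Real.log_prod fun z _ => (lt_of_lt_of_le one_pos (part_ge hS _)).ne'
  have hprodN : ∀ (x : ℤ) (N : ℕ),
      Real.log (∏ k ∈ Finset.range N, (smoothPart S (g.eval (C^[k] x)) : ℝ)) =
      ∑ k ∈ Finset.range N, h (C^[k] x) :=
    fun x N => Real.log_prod fun z _ => (lt_of_lt_of_le one_pos (part_ge hS _)).ne'
  have hposN : ∀ (x : ℤ) (N : ℕ),
      0 < ∏ k ∈ Finset.range N, (smoothPart S (g.eval (C^[k] x)) : ℝ) :=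
    fun x N => Finset.prod_pos fun z _ => lt_of_lt_of_le one_pos (part_ge hS _)
  refine ⟨?_, ?_, ?_⟩
  · obtain ⟨F, hF⟩ := H ε hε
    refine ⟨insert 0 F, fun x => ?_⟩
    by_cases hx0 : ∃ k : ℕ, C^[k] x ∈ insert 0 F
    · exact Or.inl hx0
    refine Or.inr fun N => ?_
    push Not at hx0
    have hne : ∀ k, (0 : ℝ) < |(C^[k] x : ℝ)| := by
      intro k
      have h1 := hx0 k
      rw [Finset.mem_insert, not_or] at h1
      exact abs_pos.2 (by exact_mod_cast h1.1)
    have hx : (0 : ℝ) < |(x : ℝ)| := hne 0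
    rcases hF x with ⟨k, hk⟩ | hN
    · exact absurd (Finset.mem_insert_of_mem hk) (hx0 k)
    have hP : 0 < ∏ k ∈ Finset.range N, |(C^[k] x : ℝ)| := Finset.prod_pos fun k _ => hne k
    rw [← Real.log_le_log_iff (hposN x N) (by positivity), hprodN, Real.log_mul (by positivity)
      (by positivity), Real.log_pow, Real.log_rpow hP, Real.log_prod fun k _ => (hne k).ne']
    have := hN N
    push_cast
    linarith
  · refine ((sum_cyc H ε hε).union (Cyc.finite_meet C {0})).subset ?_
    rintro Z ⟨hZ, hlt⟩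
    by_cases h0 : (0 : ℤ) ∈ Z
    · exact Or.inr ⟨hZ, 0, h0, by simp⟩
    refine Or.inl ⟨hZ, ?_⟩
    have hne : ∀ z ∈ Z, (0 : ℝ) < |(z : ℝ)| := by
      intro z hz
      have : z ≠ 0 := fun h => h0 (h ▸ hz)
      exact abs_pos.2 (by exact_mod_cast this)
    have hP : 0 < ∏ z ∈ Z, |(z : ℝ)| := Finset.prod_pos hne
    have h1 := Real.log_lt_log (by positivity) hlt
    rw [hprod, Real.log_rpow hP, Real.log_prod fun z hz => (hne z hz).ne'] at h1
    exact h1
  · intro x hx
    have hne : ∀ k, (0 : ℝ) < |(C^[k] x : ℝ)| := by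
      intro k
      refine abs_pos.2 ?_
      have : C^[k] x ≠ 0 := by
        intro h0
        have h1 : C^[k + 1] x = C^[k] x := by
          rw [Function.iterate_succ_apply', h0]
          rfl
        have := hx _ _ h1
        omega
      exact_mod_cast this
    filter_upwards [sum_inj H ε hε x hx] with N hN
    have hP : 0 < ∏ k ∈ Finset.range N, |(C^[k] x : ℝ)| := Finset.prod_pos fun k _ => hne k
    rw [← Real.log_le_log_iff (hposN x N) (by positivity), hprodN, Real.log_rpow hP,
      Real.log_prod fun k _ => (hne k).ne']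
    exact hN

end Pool.Agent.Results.MP_d02c56_nt.SmoothPartOfPolynomials
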