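import Mathlib
import Pool.Agent.H499R2.NDClass2
import Pool.Agent.X62.BE.Main

set_option autoImplicit false

/-!
Products and the Collatz map.

The indicator function of a set invariant under the Collatz map is equidistributed along the products
`a * b` of two integers of very different sizes, in the strongest (bilinear) sense: it does not
correlate with `u a * v b` for any bounded weights `u` and `v`. Hence the members of a merging class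
realise all patterns of finite sums and of products of pairs with the frequency of independent random
sets, the events `x ∈ S₁`, `y ∈ S₂`, `c * x * y ∈ S₃` are asymptotically independent, and the
conjecture holds if and only if the set of the integers reaching a known cycle is closed under
multiplication (even if only most of the products are known to be in it).
-/

namespace Pool.Agent.Results.MP_d02c56_nt.SumsAndProducts

open Filter Topology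

/-- The Collatz map on the integers. -/
def C (x : ℤ) : ℤ := if x % 2 = 0 then x / 2 else 3 * x + 1

/-- `S` is invariant under the Collatz map and its inverse. -/
def Invariant (S : Set ℤ) : Prop := ∀ x : ℤ, x ∈ S ↔ C x ∈ S

/-- Among the integers of sign `s` the set `S` has natural density `δ`. -/
def HasDensity (s : ℤ) (S : Set ℤ) (δ : ℝ) : Prop :=
  Tendsto (fun N : ℕ => ({n : ℤ | 0 < s * n ∧ s * n ≤ N ∧ n ∈ S}.ncard : ℝ) / N) atTop (𝓝 δ)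

/-- The trajectories of `x` and `y` merge. -/
def Merge (x y : ℤ) : Prop := ∃ m n : ℕ, C^[m] x = C^[n] y

/-- The union of the five known cycles. -/
def Known : Finset ℤ := {1, 4, 2, -1, -2, -5, -14, -7, -20, -10, -17, -50, -25, -74, -37, -110,
  -55, -164, -82, -41, -122, -61, -182, -91, -272, -136, -68, -34, 0}

/-- The trajectory of `x` reaches one of the five known cycles. -/
def Reaches (x : ℤ) : Prop := ∃ k : ℕ, C^[k] x ∈ Known

/-- The tuples of integers `x i ∈ (P i, 2 P i]` such that `s i` times the sum of the `x j` with `j ∈ J` is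
in `S i` for all sets `J` of indices with maximum `i` (in particular `s i * x i ∈ S i`) and
`t i j * x i * x j ∈ U i j` for all `i < j`. -/
def Pattern {k : ℕ} (P : Fin k → ℕ) (s : Fin k → ℤ) (S : Fin k → Set ℤ) (t : Fin k → Fin k → ℤ)
    (U : Fin k → Fin k → Set ℤ) : Set (Fin k → ℕ) :=
  {x | (∀ i, P i < x i ∧ x i ≤ 2 * P i) ∧
    (∀ (i : Fin k) (J : Finset (Fin k)), i ∈ J → (∀ j ∈ J, j ≤ i) → s i * ∑ j ∈ J, (x j : ℤ) ∈ S i) ∧
    ∀ i j : Fin k, i < j → t i j * (x i * x j) ∈ U i j}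

/-- `E` is a rare set of pairs: for all `ϑ > 0` there is `α > 0` such that for every `ε > 0` there are
arbitrarily large `N` and `P` with `N ^ α ≤ P ≤ N ^ ϑ` for which `E` contains at most `ε P N` pairs
`(x, y)` with `P < |x| ≤ 2 P` and `1 ≤ |y| ≤ N`. -/
def Rare (E : Set (ℤ × ℤ)) : Prop :=
  ∀ ϑ : ℝ, 0 < ϑ → ∃ α : ℝ, 0 < α ∧ ∀ ε : ℝ, 0 < ε → ∀ N₀ : ℕ, ∃ N P : ℕ, N₀ ≤ N ∧
    (N : ℝ) ^ α ≤ P ∧ (P : ℝ) ≤ (N : ℝ) ^ ϑ ∧
    ({p : ℤ × ℤ | p ∈ E ∧ P < |p.1| ∧ |p.1| ≤ 2 * P ∧ 1 ≤ |p.2| ∧ |p.2| ≤ N}.ncard : ℝ) ≤ ε * (P * N)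

open Pool.Agent.H499R2.ND Pool.Agent.H499R2.CO Pool.Agent.W41 Pool.Agent.W41.FU Pool.Agent.W41.MU

theorem known_closed : ∀ x ∈ Known, C x ∈ Known := by decide

theorem reaches_inv : Invariant {x | Reaches x} := by
  intro x
  constructor
  · rintro ⟨k, hk⟩
    cases k with
    | zero => exact ⟨0, known_closed x hk⟩
    | succ k => exact ⟨k, by rw [Function.iterate_succ_apply] at hk; exact hk⟩
  · rintro ⟨k, hk⟩
    exact ⟨k + 1, by rw [Function.iterate_succ_apply]; exact hk⟩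

theorem merge_inv (w : ℤ) : Invariant {x | Merge x w} := by
  intro x
  constructor
  · rintro ⟨m, n, h⟩
    refine ⟨m, n + 1, ?_⟩
    rw [← Function.iterate_succ_apply, Function.iterate_succ_apply', h, ← Function.iterate_succ_apply' C n]
  · rintro ⟨m, n, h⟩
    exact ⟨m + 1, n, by rw [Function.iterate_succ_apply]; exact h⟩

theorem compl_inv {S : Set ℤ} (h : Invariant S) : Invariant Sᶜ := fun x => not_congr (h x)

theorem inv_of {S : Set ℤ} (hS : Invariant S) : Inv 1 S := by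
  intro x
  have e : Td 1 x = C x ∨ Td 1 x = C (C x) := by
    unfold Td C
    by_cases h : x % 2 = 0
    · left; simp [h]
    · right
      have h2 : (3 * x + 1) % 2 = 0 := by omega
      simp [h, h2]
  rcases e with h | h
  · rw [h]; exact hS x
  · rw [h]; exact (hS x).trans (hS (C x))

theorem HD_of {s : ℤ} (hs : s = 1 ∨ s = -1) {S : Set ℤ} (hS : Invariant S) {δ : ℝ}
    (h : HasDensity s S δ) : HD s S δ := by
  obtain ⟨δ', -, -, hδ'⟩ := dens_side (d := 1) odd_one (by norm_num) hs (inv_of hS)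
  have h1 : HasDensity s S δ' := HD_ncard hs hδ'
  rw [tendsto_nhds_unique h h1]
  exact hδ'

theorem HD_iff {s : ℤ} (hs : s = 1 ∨ s = -1) {S : Set ℤ} (hS : Invariant S) :
    ∃ δ : ℝ, HD s S δ ∧ HasDensity s S δ := by
  obtain ⟨δ, -, -, h⟩ := dens_side (d := 1) odd_one (by norm_num) hs (inv_of hS)
  exact ⟨δ, h, HD_ncard hs h⟩

theorem ind_eq (s : ℤ) (S : Set ℤ) (δ : ℝ) (x : ℤ) : S.indicator (fun _ => (1 : ℝ)) (s * x) - δ = bal s S δ x := by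
  unfold bal ind
  by_cases h : s * x ∈ S
  · rw [Set.indicator_of_mem h, if_pos h]
  · rw [Set.indicator_of_notMem h, if_neg h]

/-- both signs -/
theorem bil' {ε : ℝ} (hε : 0 < ε) (hε1 : ε ≤ 1) :
    ∃ ϑ : ℝ, 0 < ϑ ∧ ∀ α : ℝ, 0 < α → ∃ N0 : ℕ, 2 ≤ N0 ∧ ∀ s : ℤ, (s = 1 ∨ s = -1) →
    ∀ N : ℕ, N0 ≤ N → ∀ S : Set ℤ, Inv 1 S → ∀ δ : ℝ, HD s S δ →
    ∀ P : ℕ, (N : ℝ) ^ α ≤ P → (P : ℝ) ≤ (N : ℝ) ^ ϑ →
    ∀ r : ℕ, 1 ≤ r → (r : ℝ) ≤ (N : ℝ) ^ ϑ →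
    ∀ u v : ℕ → ℝ, (∀ a, |u a| ≤ 1) → (∀ b, |v b| ≤ 1) →
    |∑ a ∈ Finset.Ioc P (2 * P), ∑ b ∈ Finset.Icc 1 N, u a * v b * bal s S δ ((a * (r * b) : ℕ) : ℤ)| ≤
      ε * (P * N) := by
  obtain ⟨ϑ1, h1, -, H1⟩ := X62.BE.bil (s := 1) (Or.inl rfl) hε hε1
  obtain ⟨ϑ2, h2, -, H2⟩ := X62.BE.bil (s := -1) (Or.inr rfl) hε hε1
  refine ⟨min ϑ1 ϑ2, lt_min h1 h2, fun α hα => ?_⟩
  obtain ⟨N1, hN1, H1⟩ := H1 α hα
  obtain ⟨N2, hN2, H2⟩ := H2 α hα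
  refine ⟨max N1 N2, le_trans hN1 (le_max_left _ _), fun s hs N hN S hS δ hδ P hP1 hP2 r hr1 hr2 => ?_⟩
  have hN3 : (1 : ℝ) ≤ N := by
    have : 2 ≤ N := le_trans hN1 (le_trans (le_max_left _ _) hN)
    exact_mod_cast (by omega : 1 ≤ N)
  rcases hs with rfl | rfl
  · exact H1 N (le_trans (le_max_left _ _) hN) S hS δ hδ P hP1
      (hP2.trans (Real.rpow_le_rpow_of_exponent_le hN3 (min_le_left _ _))) r hr1
      (hr2.trans (Real.rpow_le_rpow_of_exponent_le hN3 (min_le_left _ _)))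
  · exact H2 N (le_trans (le_max_right _ _) hN) S hS δ hδ P hP1
      (hP2.trans (Real.rpow_le_rpow_of_exponent_le hN3 (min_le_right _ _))) r hr1
      (hr2.trans (Real.rpow_le_rpow_of_exponent_le hN3 (min_le_right _ _)))

/-- the bilinear estimate, complex weights -/
theorem bilinear {ε : ℝ} (hε : 0 < ε) :
    ∃ ϑ : ℝ, 0 < ϑ ∧ ∀ α : ℝ, 0 < α → ∃ N₀ : ℕ, ∀ s : ℤ, s = 1 ∨ s = -1 →
    ∀ (S : Set ℤ) (δ : ℝ), Invariant S → HasDensity s S δ → ∀ N P r : ℕ, N₀ ≤ N →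
    (N : ℝ) ^ α ≤ P → (P : ℝ) ≤ (N : ℝ) ^ ϑ → 1 ≤ r → (r : ℝ) ≤ (N : ℝ) ^ ϑ →
    ∀ u v : ℕ → ℂ, (∀ a, ‖u a‖ ≤ 1) → (∀ b, ‖v b‖ ≤ 1) →
    ‖∑ a ∈ Finset.Ioc P (2 * P), ∑ b ∈ Finset.Icc 1 N,
      u a * v b * ((S.indicator (fun _ => (1 : ℝ)) (s * (r * a * b : ℕ)) - δ : ℝ) : ℂ)‖ ≤ ε * (P * N) := by
  obtain ⟨ϑ, h0, H⟩ := bil' (ε := min ε 1 / 4) (by have := lt_min hε one_pos; positivity)
    (by have := min_le_right ε 1; linarith)
  refine ⟨ϑ, h0, fun α hα => ?_⟩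
  obtain ⟨N0, hN0, H⟩ := H α hα
  refine ⟨N0, fun s hs S δ hS hδ N P r hN hP1 hP2 hr1 hr2 u v hu hv => ?_⟩
  have H := H s hs N hN S (inv_of hS) δ (HD_of hs hS hδ) P hP1 hP2 r hr1 hr2
  set F : (ℕ → ℝ) → (ℕ → ℝ) → ℝ := fun u v => ∑ a ∈ Finset.Ioc P (2 * P), ∑ b ∈ Finset.Icc 1 N,
    u a * v b * bal s S δ ((a * (r * b) : ℕ) : ℤ) with hF
  have hre : ∀ z : ℂ, ‖z‖ ≤ 1 → |z.re| ≤ 1 := fun z hz => (Complex.abs_re_le_norm z).trans hz
  have him : ∀ z : ℂ, ‖z‖ ≤ 1 → |z.im| ≤ 1 := fun z hz => (Complex.abs_im_le_norm z).trans hz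
  have h1 := H (fun a => (u a).re) (fun b => (v b).re) (fun a => hre _ (hu a)) (fun b => hre _ (hv b))
  have h2 := H (fun a => (u a).im) (fun b => (v b).im) (fun a => him _ (hu a)) (fun b => him _ (hv b))
  have h3 := H (fun a => (u a).re) (fun b => (v b).im) (fun a => hre _ (hu a)) (fun b => him _ (hv b))
  have h4 := H (fun a => (u a).im) (fun b => (v b).re) (fun a => him _ (hu a)) (fun b => hre _ (hv b))
  have e : ∑ a ∈ Finset.Ioc P (2 * P), ∑ b ∈ Finset.Icc 1 N,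
      u a * v b * ((S.indicator (fun _ => (1 : ℝ)) (s * (r * a * b : ℕ)) - δ : ℝ) : ℂ) =
      ((F (fun a => (u a).re) (fun b => (v b).re) : ℝ) : ℂ) - ((F (fun a => (u a).im) (fun b => (v b).im) : ℝ) : ℂ) +
      (((F (fun a => (u a).re) (fun b => (v b).im) : ℝ) : ℂ) + ((F (fun a => (u a).im) (fun b => (v b).re) : ℝ) : ℂ)) * Complex.I := by
    simp only [hF, Complex.ofReal_sum]
    rw [← Finset.sum_sub_distrib, ← Finset.sum_add_distrib, Finset.sum_mul, ← Finset.sum_add_distrib]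
    apply Finset.sum_congr rfl
    intro a _
    rw [← Finset.sum_sub_distrib, ← Finset.sum_add_distrib, Finset.sum_mul, ← Finset.sum_add_distrib]
    apply Finset.sum_congr rfl
    intro b _
    rw [ind_eq, show r * a * b = a * (r * b) by ring]
    conv_lhs => rw [← Complex.re_add_im (u a), ← Complex.re_add_im (v b)]
    push_cast
    linear_combination (-((u a).im : ℂ) * (v b).im * (bal s S δ ((a : ℤ) * (r * b)) : ℂ)) * (-Complex.I_mul_I)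
  rw [e]
  have hPN : (0 : ℝ) ≤ P * N := by positivity
  have hc : ∀ x : ℝ, |x| ≤ min ε 1 / 4 * (P * N) → ‖(x : ℂ)‖ ≤ ε / 4 * (P * N) := by
    intro x hx
    rw [Complex.norm_real, Real.norm_eq_abs]
    exact hx.trans (mul_le_mul_of_nonneg_right (by have := min_le_left ε 1; linarith) hPN)
  have n1 := hc _ h1
  have n2 := hc _ h2
  have n3 := hc _ h3
  have n4 := hc _ h4
  calc _ ≤ ‖((F (fun a => (u a).re) (fun b => (v b).re) : ℝ) : ℂ)‖ +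
        ‖((F (fun a => (u a).im) (fun b => (v b).im) : ℝ) : ℂ)‖ +
        (‖((F (fun a => (u a).re) (fun b => (v b).im) : ℝ) : ℂ)‖ +
        ‖((F (fun a => (u a).im) (fun b => (v b).re) : ℝ) : ℂ)‖) * ‖Complex.I‖ := by
        refine (norm_add_le _ _).trans (add_le_add (norm_sub_le _ _) ?_)
        rw [norm_mul]
        exact mul_le_mul_of_nonneg_right (norm_add_le _ _) (norm_nonneg _)
    _ ≤ ε * (P * N) := by
        rw [Complex.norm_I]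
        linarith

open scoped Classical in
/-- patterns of sums and products -/
theorem pattern (k : ℕ) {ε : ℝ} (hε : 0 < ε) :
    ∃ ϑ : ℝ, 0 < ϑ ∧ ∀ α : ℝ, 0 < α → ∃ N₀ : ℕ, ∀ P : Fin k → ℕ, (∀ i, N₀ ≤ P i) →
    (∀ i j, i < j → (P j : ℝ) ^ α ≤ P i ∧ (P i : ℝ) ≤ (P j : ℝ) ^ ϑ) →
    ∀ (s : Fin k → ℤ) (S : Fin k → Set ℤ) (δ : Fin k → ℝ) (t : Fin k → Fin k → ℤ)
      (U : Fin k → Fin k → Set ℤ) (η : Fin k → Fin k → ℝ),
    (∀ i, s i = 1 ∨ s i = -1) → (∀ i j, t i j = 1 ∨ t i j = -1) → (∀ i, Invariant (S i)) →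
    (∀ i j, Invariant (U i j)) → (∀ i, HasDensity (s i) (S i) (δ i)) →
    (∀ i j, HasDensity (t i j) (U i j) (η i j)) →
    |((Pattern P s S t U).ncard : ℝ) -
      ((∏ i, δ i) * ∏ e : Fin k × Fin k with e.1 < e.2, η e.1 e.2) * ∏ i, (P i : ℝ)| ≤ ε * ∏ i, (P i : ℝ) := by
  obtain ⟨ϑ, h0, H⟩ := X62.BE.pattern k (lt_min hε one_pos) (min_le_right ε 1)
  refine ⟨ϑ, h0, fun α hα => ?_⟩
  obtain ⟨N0, H⟩ := H α hα
  refine ⟨N0, fun P hP hPP s S δ t U η hs ht hS hU hδ hη => ?_⟩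
  have h := H P hP hPP s S δ (fun e => t e.1 e.2) (fun e => U e.1 e.2) (fun e => η e.1 e.2) hs
    (fun e => ht _ _) (fun i => inv_of (hS i)) (fun e => inv_of (hU _ _)) (fun i => HD_of (hs i) (hS i) (hδ i))
    (fun e => HD_of (ht _ _) (hU _ _) (hη _ _))
  have e : Pattern P s S t U = ((Finset.filter (fun x : Fin k → ℕ =>
        (∀ (J : Finset (Fin k)) (hJ : J.Nonempty), s (J.max' hJ) * ∑ i ∈ J, (x i : ℤ) ∈ S (J.max' hJ)) ∧
        ∀ e : Fin k × Fin k, e.1 < e.2 → t e.1 e.2 * ((x e.1 * x e.2 : ℕ) : ℤ) ∈ U e.1 e.2)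
        (Fintype.piFinset (fun i => Finset.Ioc (P i) (2 * P i))) : Finset (Fin k → ℕ)) : Set (Fin k → ℕ)) := by
    ext x
    simp only [Pattern, Finset.coe_filter, Set.mem_ofPred_eq, Fintype.mem_piFinset, Finset.mem_Ioc]
    refine and_congr Iff.rfl (and_congr ?_ ?_)
    · constructor
      · intro h J hJ
        exact h (J.max' hJ) J (J.max'_mem hJ) (fun j hj => J.le_max' j hj)
      · intro h i J hi hJ
        have hne : J.Nonempty := ⟨i, hi⟩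
        have e : J.max' hne = i := le_antisymm (J.max'_le hne i hJ) (J.le_max' i hi)
        have := h J hne
        rwa [e] at this
    · constructor
      · intro h e he
        have := h e.1 e.2 he
        push_cast
        exact this
      · intro h i j hij
        have := h (i, j) hij
        push_cast at this
        exact this
  rw [e, Set.ncard_coe_finset]
  exact h.trans (mul_le_mul_of_nonneg_right (min_le_left _ _) (Finset.prod_nonneg fun i _ => Nat.cast_nonneg _))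

theorem unif' {ε : ℝ} (hε : 0 < ε) : ∃ N0 : ℕ, ∀ s : ℤ, (s = 1 ∨ s = -1) → ∀ S : Set ℤ, Inv 1 S →
    ∀ δ : ℝ, HD s S δ → ∀ N : ℕ, N0 ≤ N → |(cF s S N : ℝ) - δ * N| ≤ ε * N := by
  obtain ⟨N1, H1⟩ := unif (s := 1) (Or.inl rfl) hε
  obtain ⟨N2, H2⟩ := unif (s := -1) (Or.inr rfl) hε
  refine ⟨max N1 N2, fun s hs S hS δ hδ P hP => ?_⟩
  rcases hs with rfl | rfl
  · exact H1 S hS δ hδ P (le_trans (le_max_left _ _) hP)
  · exact H2 S hS δ hδ P (le_trans (le_max_right _ _) hP)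

theorem cF_eq (s : ℤ) (S : Set ℤ) (N : ℕ) : (cF s S N : ℝ) = ∑ b ∈ Finset.Icc 1 N, ind s S ((b : ℕ) : ℤ) := by
  unfold cF
  rw [Finset.card_filter]
  push_cast
  apply Finset.sum_congr rfl
  intro a _
  unfold ind
  rfl

open scoped Classical in
/-- the count of the pairs -/
theorem pairs_count {ε : ℝ} (hε : 0 < ε) (hε1 : ε ≤ 1) :
    ∃ ϑ : ℝ, 0 < ϑ ∧ ∀ α : ℝ, 0 < α → ∀ r : ℕ, 1 ≤ r → ∃ N0 : ℕ, ∀ N : ℕ, N0 ≤ N → ∀ P : ℕ, (N : ℝ) ^ α ≤ P →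
    (P : ℝ) ≤ (N : ℝ) ^ ϑ → 0 < (P : ℝ) * N ∧ ∀ s₁ s₂ s₃ : ℤ, (s₁ = 1 ∨ s₁ = -1) → (s₂ = 1 ∨ s₂ = -1) →
    (s₃ = 1 ∨ s₃ = -1) → ∀ S₁ S₂ S₃ : Set ℤ, Inv 1 S₁ → Inv 1 S₂ → Inv 1 S₃ → ∀ δ₁ δ₂ δ₃ : ℝ,
    HD s₁ S₁ δ₁ → HD s₂ S₂ δ₂ → HD s₃ S₃ δ₃ →
    (δ₁ * δ₂ * δ₃ - 3 * ε) * (P * N) ≤ (((Finset.Ioc P (2 * P) ×ˢ Finset.Icc 1 N).filter (fun z : ℕ × ℕ =>
      s₁ * z.1 ∈ S₁ ∧ s₂ * z.2 ∈ S₂ ∧ s₃ * ((z.1 * (r * z.2) : ℕ) : ℤ) ∈ S₃)).card : ℝ) := by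
  obtain ⟨ϑ, h0, H⟩ := bil' hε hε1
  refine ⟨ϑ, h0, fun α hα r hr => ?_⟩
  obtain ⟨N1, hN1, H⟩ := H α hα
  obtain ⟨N2, H2⟩ := X62.BE.dens_dyadic' hε
  obtain ⟨N3, H3⟩ := unif' hε
  have t1 : Tendsto (fun N : ℕ => (N : ℝ) ^ α) atTop atTop :=
    (tendsto_rpow_atTop hα).comp tendsto_natCast_atTop_atTop
  have t2 : Tendsto (fun N : ℕ => (N : ℝ) ^ ϑ) atTop atTop :=
    (tendsto_rpow_atTop h0).comp tendsto_natCast_atTop_atTop
  obtain ⟨N4, H4⟩ := Filter.eventually_atTop.1 (t1.eventually_ge_atTop (N2 : ℝ))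
  obtain ⟨N5, H5⟩ := Filter.eventually_atTop.1 (t2.eventually_ge_atTop (r : ℝ))
  refine ⟨max N1 (max N3 (max N4 N5)), fun N hN P hP1 hP2 => ?_⟩
  simp only [max_le_iff] at hN
  obtain ⟨hNa, hNb, hNc, hNd⟩ := hN
  have hN2 : 2 ≤ N := le_trans hN1 hNa
  have hNp : (0 : ℝ) < N := by exact_mod_cast (by omega : 0 < N)
  have hPp : (0 : ℝ) < P := lt_of_lt_of_le (Real.rpow_pos_of_pos hNp α) hP1
  have hPN : (0 : ℝ) < (P : ℝ) * N := mul_pos hPp hNp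
  have hPN2 : N2 ≤ P := by exact_mod_cast (H4 N hNc).trans hP1
  refine ⟨hPN, fun s₁ s₂ s₃ hs₁ hs₂ hs₃ S₁ S₂ S₃ hS₁ hS₂ hS₃ δ₁ δ₂ δ₃ hδ₁ hδ₂ hδ₃ => ?_⟩
  have b1 := H s₃ hs₃ N hNa S₃ hS₃ δ₃ hδ₃ P hP1 hP2 r hr (H5 N hNd)
    (fun a => ind s₁ S₁ ((a : ℕ) : ℤ)) (fun b => ind s₂ S₂ ((b : ℕ) : ℤ))
    (fun a => by rw [abs_of_nonneg (ind_nonneg _ _ _)]; exact ind_le_one _ _ _)
    (fun b => by rw [abs_of_nonneg (ind_nonneg _ _ _)]; exact ind_le_one _ _ _)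
  have b2 := H2 s₁ hs₁ S₁ hS₁ δ₁ hδ₁ P hPN2
  have b3 := H3 s₂ hs₂ S₂ hS₂ δ₂ hδ₂ N hNb
  rw [cF_eq] at b3
  obtain ⟨A, hA⟩ : ∃ A : ℝ, A = ∑ a ∈ Finset.Ioc P (2 * P), ind s₁ S₁ ((a : ℕ) : ℤ) := ⟨_, rfl⟩
  obtain ⟨B, hB⟩ : ∃ B : ℝ, B = ∑ b ∈ Finset.Icc 1 N, ind s₂ S₂ ((b : ℕ) : ℤ) := ⟨_, rfl⟩
  rw [← hA] at b2
  rw [← hB] at b3
  have e1 : (((Finset.Ioc P (2 * P) ×ˢ Finset.Icc 1 N).filter (fun z : ℕ × ℕ =>
      s₁ * z.1 ∈ S₁ ∧ s₂ * z.2 ∈ S₂ ∧ s₃ * ((z.1 * (r * z.2) : ℕ) : ℤ) ∈ S₃)).card : ℝ) =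
      ∑ a ∈ Finset.Ioc P (2 * P), ∑ b ∈ Finset.Icc 1 N, ind s₁ S₁ ((a : ℕ) : ℤ) * ind s₂ S₂ ((b : ℕ) : ℤ) *
        ind s₃ S₃ ((a * (r * b) : ℕ) : ℤ) := by
    rw [Finset.card_filter]
    push_cast
    rw [Finset.sum_product]
    apply Finset.sum_congr rfl
    intro a _
    apply Finset.sum_congr rfl
    intro b _
    unfold ind
    by_cases h1 : s₁ * (a : ℤ) ∈ S₁
    · by_cases h2 : s₂ * (b : ℤ) ∈ S₂
      · by_cases h3 : s₃ * ((a : ℤ) * (r * b)) ∈ S₃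
        · rw [if_pos ⟨h1, h2, h3⟩, if_pos h1, if_pos h2, if_pos h3]; norm_num
        · rw [if_neg (fun h => h3 h.2.2), if_neg h3]; norm_num
      · rw [if_neg (fun h => h2 h.2.1), if_neg h2]; norm_num
    · rw [if_neg (fun h => h1 h.1), if_neg h1]; norm_num
  have e2 : ∑ a ∈ Finset.Ioc P (2 * P), ∑ b ∈ Finset.Icc 1 N, ind s₁ S₁ ((a : ℕ) : ℤ) * ind s₂ S₂ ((b : ℕ) : ℤ) *
        bal s₃ S₃ δ₃ ((a * (r * b) : ℕ) : ℤ) =
      ∑ a ∈ Finset.Ioc P (2 * P), ∑ b ∈ Finset.Icc 1 N, ind s₁ S₁ ((a : ℕ) : ℤ) * ind s₂ S₂ ((b : ℕ) : ℤ) *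
        ind s₃ S₃ ((a * (r * b) : ℕ) : ℤ) - δ₃ * (A * B) := by
    rw [hA, hB, Finset.sum_mul_sum, Finset.mul_sum, ← Finset.sum_sub_distrib]
    apply Finset.sum_congr rfl
    intro a _
    rw [Finset.mul_sum, ← Finset.sum_sub_distrib]
    apply Finset.sum_congr rfl
    intro b _
    unfold bal
    ring
  rw [e1]
  rw [e2] at b1
  have d1 := HD_mem hs₁ hδ₁
  have d2 := HD_mem hs₂ hδ₂
  have d3 := HD_mem hs₃ hδ₃
  have A1 : (δ₁ - ε) * P ≤ A := by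
    rw [abs_le] at b2
    nlinarith [b2.1]
  have A2 : A ≤ P := by
    rw [hA]
    refine (Finset.sum_le_sum fun a _ => ind_le_one _ _ _).trans ?_
    rw [Finset.sum_const, nsmul_eq_mul, mul_one, Nat.card_Ioc, show 2 * P - P = P by omega]
  have B1 : (δ₂ - ε) * N ≤ B := by
    rw [abs_le] at b3
    nlinarith [b3.1]
  have A0 : 0 ≤ A := by rw [hA]; exact Finset.sum_nonneg fun _ _ => ind_nonneg _ _ _
  -- A B ≥ (δ₁ δ₂ - 2 ε) P N
  have AB : (δ₁ * δ₂ - 2 * ε) * (P * N) ≤ A * B := by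
    have h1 : A * ((δ₂ - ε) * N) ≤ A * B := mul_le_mul_of_nonneg_left B1 A0
    have h2 : δ₂ * N * ((δ₁ - ε) * P) ≤ δ₂ * N * A :=
      mul_le_mul_of_nonneg_left A1 (mul_nonneg d2.1 hNp.le)
    have h3 : ε * N * A ≤ ε * N * P := mul_le_mul_of_nonneg_left A2 (by positivity)
    have h4 : δ₂ * (ε * (P * N)) ≤ 1 * (ε * (P * N)) := mul_le_mul_of_nonneg_right d2.2 (by positivity)
    nlinarith
  have AB3 : δ₃ * ((δ₁ * δ₂ - 2 * ε) * (P * N)) ≤ δ₃ * (A * B) := mul_le_mul_of_nonneg_left AB d3.1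
  have h5 : δ₃ * (2 * ε * (P * N)) ≤ 1 * (2 * ε * (P * N)) := mul_le_mul_of_nonneg_right d3.2 (by positivity)
  rw [abs_le] at b1
  have b11 := b1.1
  clear e1 e2
  nlinarith

theorem sign_cases {x : ℤ} (hx : x ≠ 0) : ∃ s : ℤ, (s = 1 ∨ s = -1) ∧ 0 < s * x ∧ s * |x| = x := by
  rcases lt_or_gt_of_ne hx with h | h
  · refine ⟨-1, Or.inr rfl, by omega, ?_⟩
    rw [abs_of_neg h]; ring
  · refine ⟨1, Or.inl rfl, by omega, ?_⟩
    rw [abs_of_pos h]; ring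

theorem sgn_mul_self {s : ℤ} (hs : s = 1 ∨ s = -1) : s * s = 1 := by
  rcases hs with rfl | rfl <;> norm_num

/-- three invariant sets -/
theorem not_rare {c : ℤ} {S₁ S₂ S₃ : Set ℤ} (h₁ : Invariant S₁) (h₂ : Invariant S₂) (h₃ : Invariant S₃)
    {x y z : ℤ} (hx : x ∈ S₁) (hy : y ∈ S₂) (hz : z ∈ S₃) (h : 0 < c * x * y * z) :
    ¬ Rare {p : ℤ × ℤ | p.1 ∈ S₁ ∧ p.2 ∈ S₂ ∧ c * p.1 * p.2 ∈ S₃} := by
  classical
  have hz0 : z ≠ 0 := by rintro rfl; simp at h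
  have hy0 : y ≠ 0 := by rintro rfl; simp at h
  have hx0 : x ≠ 0 := by rintro rfl; simp at h
  have hc0 : c ≠ 0 := by rintro rfl; simp at h
  obtain ⟨s₁, hs₁, p₁, -⟩ := sign_cases hx0
  obtain ⟨s₂, hs₂, p₂, -⟩ := sign_cases hy0
  obtain ⟨s₃, hs₃, p₃, -⟩ := sign_cases hz0
  obtain ⟨sc, hsc, pc, ec⟩ := sign_cases hc0
  have q₁ := sgn_mul_self hs₁
  have q₂ := sgn_mul_self hs₂
  have q₃ := sgn_mul_self hs₃
  have qc := sgn_mul_self hsc
  have hsg : s₃ = sc * s₁ * s₂ := by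
    have h1 : 0 < (sc * c) * (s₁ * x) * (s₂ * y) * (s₃ * z) := by positivity
    have h2 : 0 < (sc * s₁ * s₂ * s₃) * (c * x * y * z) := by
      have e : (sc * s₁ * s₂ * s₃) * (c * x * y * z) = (sc * c) * (s₁ * x) * (s₂ * y) * (s₃ * z) := by ring
      rw [e]; exact h1
    have h3 : 0 < sc * s₁ * s₂ * s₃ := (pos_iff_pos_of_mul_pos h2).2 h
    rcases hs₁ with rfl | rfl <;> rcases hs₂ with rfl | rfl <;> rcases hs₃ with rfl | rfl <;>
      rcases hsc with rfl | rfl <;> revert h3 <;> decide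
  obtain ⟨δ₁, d₁, -⟩ := HD_iff hs₁ h₁
  obtain ⟨δ₂, d₂, -⟩ := HD_iff hs₂ h₂
  obtain ⟨δ₃, d₃, -⟩ := HD_iff hs₃ h₃
  have P₁ := one_pos hs₁ (inv_of h₁) hx p₁ d₁
  have P₂ := one_pos hs₂ (inv_of h₂) hy p₂ d₂
  have P₃ := one_pos hs₃ (inv_of h₃) hz p₃ d₃
  have m₁ := HD_mem hs₁ d₁
  have m₂ := HD_mem hs₂ d₂
  have m₃ := HD_mem hs₃ d₃
  have hD : 0 < δ₁ * δ₂ * δ₃ := by positivity
  have hD1 : δ₁ * δ₂ * δ₃ ≤ 1 := mul_le_one₀ (mul_le_one₀ m₁.2 m₂.1 m₂.2) m₃.1 m₃.2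
  obtain ⟨ϑ, h0, H⟩ := pairs_count (ε := δ₁ * δ₂ * δ₃ / 5) (by positivity) (by linarith)
  intro hR
  obtain ⟨α, hα, hR⟩ := hR ϑ h0
  have hr : 1 ≤ c.natAbs := Int.natAbs_pos.2 hc0
  obtain ⟨N0, H⟩ := H α hα c.natAbs hr
  obtain ⟨N, P, hN, hP1, hP2, hle⟩ := hR (δ₁ * δ₂ * δ₃ / 5) (by positivity) N0
  obtain ⟨hPN, H⟩ := H N hN P hP1 hP2
  have H := H s₁ s₂ s₃ hs₁ hs₂ hs₃ S₁ S₂ S₃ (inv_of h₁) (inv_of h₂) (inv_of h₃) δ₁ δ₂ δ₃ d₁ d₂ d₃
  set A := (Finset.Ioc P (2 * P) ×ˢ Finset.Icc 1 N).filter (fun z : ℕ × ℕ =>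
      s₁ * z.1 ∈ S₁ ∧ s₂ * z.2 ∈ S₂ ∧ s₃ * ((z.1 * (c.natAbs * z.2) : ℕ) : ℤ) ∈ S₃) with hA
  set B := {p : ℤ × ℤ | p ∈ {p : ℤ × ℤ | p.1 ∈ S₁ ∧ p.2 ∈ S₂ ∧ c * p.1 * p.2 ∈ S₃} ∧ P < |p.1| ∧ |p.1| ≤ 2 * P ∧
    1 ≤ |p.2| ∧ |p.2| ≤ N} with hB
  have hfin : B.Finite := by
    apply Set.Finite.subset (Finset.finite_toSet (Finset.Icc (-(2 * P) : ℤ) (2 * P) ×ˢ Finset.Icc (-N : ℤ) N))
    rintro ⟨p, q⟩ ⟨-, -, h1, -, h2⟩
    simp only [Finset.coe_product, Finset.coe_Icc, Set.mem_prod, Set.mem_Icc]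
    exact ⟨abs_le.1 h1, abs_le.1 h2⟩
  have hcard : A.card ≤ B.ncard := by
    rw [← Set.ncard_coe_finset]
    apply Set.ncard_le_ncard_of_injOn (fun z : ℕ × ℕ => (s₁ * (z.1 : ℤ), s₂ * (z.2 : ℤ))) _ _ hfin
    · rintro ⟨a, b⟩ hab
      simp only [hA, Finset.coe_filter, Finset.mem_product, Finset.mem_Ioc, Finset.mem_Icc, Set.mem_ofPred_eq] at hab
      obtain ⟨⟨⟨ha1, ha2⟩, hb1, hb2⟩, g1, g2, g3⟩ := hab
      have ea : |s₁ * (a : ℤ)| = a := by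
        rcases hs₁ with rfl | rfl <;> simp
      have eb : |s₂ * (b : ℤ)| = b := by
        rcases hs₂ with rfl | rfl <;> simp
      refine ⟨⟨g1, g2, ?_⟩, ?_, ?_, ?_, ?_⟩
      · have e : c * (s₁ * (a : ℤ)) * (s₂ * (b : ℤ)) = s₃ * ((a * (c.natAbs * b) : ℕ) : ℤ) := by
          have : c = sc * (c.natAbs : ℤ) := by rw [← Int.abs_eq_natAbs, ec]
          rw [hsg]
          push_cast
          rw [Int.abs_eq_natAbs] at *
          nth_rw 1 [this]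
          ring
        simp only
        rw [e]; exact g3
      · simp only; rw [ea]; exact_mod_cast ha1
      · simp only; rw [ea]; exact_mod_cast ha2
      · simp only; rw [eb]; exact_mod_cast hb1
      · simp only; rw [eb]; exact_mod_cast hb2
    · rintro ⟨a, b⟩ _ ⟨a', b'⟩ _ hab
      simp only [Prod.mk.injEq] at hab
      obtain ⟨e1, e2⟩ := hab
      have f1 : (a : ℤ) = a' := by
        rcases hs₁ with rfl | rfl <;> linarith
      have f2 : (b : ℤ) = b' := by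
        rcases hs₂ with rfl | rfl <;> linarith
      rw [Prod.mk.injEq]
      exact ⟨by exact_mod_cast f1, by exact_mod_cast f2⟩
  have hcard' : (A.card : ℝ) ≤ B.ncard := by exact_mod_cast hcard
  nlinarith

theorem rare_empty {E : Set (ℤ × ℤ)} (hE : E = ∅) : Rare E := by
  intro ϑ hϑ
  refine ⟨ϑ / 2, by positivity, fun ε hε N0 => ?_⟩
  have t2 : Tendsto (fun N : ℕ => (N : ℝ) ^ (ϑ / 2)) atTop atTop :=
    (tendsto_rpow_atTop (by positivity)).comp tendsto_natCast_atTop_atTop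
  obtain ⟨N, hN1, hN2⟩ := ((t2.eventually_ge_atTop (2 : ℝ)).and (eventually_ge_atTop (max N0 1))).exists
  have hN0 : (0 : ℝ) ≤ N := Nat.cast_nonneg _
  refine ⟨N, ⌈(N : ℝ) ^ (ϑ / 2)⌉₊, le_trans (le_max_left _ _) hN2, Nat.le_ceil _, ?_, ?_⟩
  · have h1 := Nat.ceil_lt_add_one (show 0 ≤ (N : ℝ) ^ (ϑ / 2) by positivity)
    have h2 : (N : ℝ) ^ ϑ = (N : ℝ) ^ (ϑ / 2) * (N : ℝ) ^ (ϑ / 2) := by
      rw [← Real.rpow_add (by exact_mod_cast lt_of_lt_of_le (by norm_num : 0 < 1) (le_trans (le_max_right _ _) hN2))]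
      congr 1; ring
    rw [h2]
    nlinarith
  · have : {p : ℤ × ℤ | p ∈ E ∧ (⌈(N : ℝ) ^ (ϑ / 2)⌉₊ : ℤ) < |p.1| ∧ |p.1| ≤ 2 * (⌈(N : ℝ) ^ (ϑ / 2)⌉₊ : ℤ) ∧
        1 ≤ |p.2| ∧ |p.2| ≤ N} = ∅ := by
      ext p
      simp [hE]
    rw [this, Set.ncard_empty]
    simp only [Nat.cast_zero]
    positivity

theorem reaches_one : Reaches 1 := ⟨0, by decide⟩

theorem reaches_neg_one : Reaches (-1) := ⟨0, by decide⟩

theorem reaches_zero : Reaches 0 := ⟨0, by decide⟩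

theorem C_pos (x : ℤ) : 0 < C x ↔ 0 < x := by
  unfold C
  split_ifs with h <;> omega

theorem iter_pos (k : ℕ) (x : ℤ) : 0 < C^[k] x ↔ 0 < x := by
  induction k generalizing x with
  | zero => simp
  | succ k ih => rw [Function.iterate_succ_apply, ih, C_pos]

theorem merge_pos {x y : ℤ} (h : Merge x y) : 0 < x ↔ 0 < y := by
  obtain ⟨m, n, h⟩ := h
  rw [← iter_pos m, h, iter_pos]

theorem merge_symm {x y : ℤ} (h : Merge x y) : Merge y x := by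
  obtain ⟨m, n, h⟩ := h
  exact ⟨n, m, h.symm⟩

theorem merge_trans {x y z : ℤ} (h : Merge x y) (h' : Merge y z) : Merge x z := by
  obtain ⟨m, n, h⟩ := h
  obtain ⟨m', n', h'⟩ := h'
  refine ⟨m + m', n + n', ?_⟩
  rw [Nat.add_comm m m', Function.iterate_add_apply, h, ← Function.iterate_add_apply, Nat.add_comm m' n,
    Function.iterate_add_apply, h', ← Function.iterate_add_apply]

theorem iter_one (n : ℕ) : C^[n] 1 = 1 ∨ C^[n] 1 = 4 ∨ C^[n] 1 = 2 := by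
  induction n with
  | zero => left; rfl
  | succ n ih =>
    rw [Function.iterate_succ_apply']
    rcases ih with h | h | h <;> rw [h] <;> decide

theorem merge_one {x : ℤ} : Merge x 1 ↔ ∃ k : ℕ, C^[k] x = 1 := by
  constructor
  · rintro ⟨m, n, h⟩
    rcases iter_one n with h1 | h1 | h1
    · exact ⟨m, by rw [h, h1]⟩
    · refine ⟨2 + m, ?_⟩
      rw [Function.iterate_add_apply, h, h1]; decide
    · refine ⟨1 + m, ?_⟩
      rw [Function.iterate_add_apply, h, h1]; decide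
  · rintro ⟨k, h⟩
    exact ⟨k, 0, h⟩

theorem merge_refl (x : ℤ) : Merge x x := ⟨0, 0, rfl⟩

/-- from a number that does not reach a known cycle -/
theorem main_rare (h : Rare {p : ℤ × ℤ | Reaches p.1 ∧ Reaches p.2 ∧ ¬ Reaches (p.1 * p.2)}) (z : ℤ) :
    Reaches z := by
  by_contra hz
  have hz0 : z ≠ 0 := by rintro rfl; exact hz reaches_zero
  have key : ∀ y : ℤ, Reaches y → 0 < y * z → False := by
    intro y hy hyz
    refine not_rare (c := 1) (x := 1) reaches_inv reaches_inv (compl_inv reaches_inv) reaches_one hy hz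
      (by simpa using hyz) ?_
    have e : {p : ℤ × ℤ | p.1 ∈ {x | Reaches x} ∧ p.2 ∈ {x | Reaches x} ∧ 1 * p.1 * p.2 ∈ {x | Reaches x}ᶜ} =
        {p : ℤ × ℤ | Reaches p.1 ∧ Reaches p.2 ∧ ¬ Reaches (p.1 * p.2)} := by
      ext p; simp
    rw [e]; exact h
  rcases lt_or_gt_of_ne hz0 with h0 | h0
  · exact key (-1) reaches_neg_one (by linarith)
  · exact key 1 reaches_one (by linarith)

theorem main_div (h : Rare {p : ℤ × ℤ | Reaches p.1 ∧ ¬ Reaches p.2 ∧ Reaches (p.1 * p.2)}) (z : ℤ) :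
    Reaches z := by
  by_contra hz
  have hz0 : z ≠ 0 := by rintro rfl; exact hz reaches_zero
  have key : ∀ y : ℤ, Reaches y → 0 < z * y → False := by
    intro y hy hyz
    refine not_rare (c := 1) (x := 1) reaches_inv (compl_inv reaches_inv) reaches_inv reaches_one hz hy
      (by simpa using hyz) ?_
    have e : {p : ℤ × ℤ | p.1 ∈ {x | Reaches x} ∧ p.2 ∈ {x | Reaches x}ᶜ ∧ 1 * p.1 * p.2 ∈ {x | Reaches x}} =
        {p : ℤ × ℤ | Reaches p.1 ∧ ¬ Reaches p.2 ∧ Reaches (p.1 * p.2)} := by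
      ext p; simp
    rw [e]; exact h
  rcases lt_or_gt_of_ne hz0 with h0 | h0
  · exact key (-1) reaches_neg_one (by linarith)
  · exact key 1 reaches_one (by linarith)

theorem main_class {w : ℤ} (hw : 0 < w) :
    (∀ x : ℤ, 0 < x → ∃ k : ℕ, C^[k] x = 1) ↔ ∀ x y : ℤ, Merge x w → Merge y w → Merge (x * y) w := by
  constructor
  · intro h x y hx hy
    have hx0 : 0 < x := (merge_pos hx).2 hw
    have hy0 : 0 < y := (merge_pos hy).2 hw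
    exact merge_trans (merge_one.2 (h _ (mul_pos hx0 hy0))) (merge_symm (merge_one.2 (h w hw)))
  · intro h
    have key : ∀ z : ℤ, 0 < z → Merge z w := by
      intro z hz
      by_contra hzw
      refine not_rare (c := 1) (x := w) (y := w) (merge_inv w) (merge_inv w) (compl_inv (merge_inv w))
        (merge_refl w) (merge_refl w) hzw (by positivity) (rare_empty ?_)
      ext p
      simp only [Set.mem_ofPred_eq, Set.mem_compl_iff, Set.mem_empty_iff_false, iff_false, not_and, not_not, one_mul]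
      exact fun h1 h2 => h _ _ h1 h2
    intro x hx
    exact merge_one.1 (merge_trans (key x hx) (merge_symm (key 1 one_pos)))

open scoped Classical in
/-- **Products and sums in the sets invariant under the Collatz map.** -/
theorem result :
    -- the bilinear estimate
    (∀ ε : ℝ, 0 < ε → ∃ ϑ : ℝ, 0 < ϑ ∧ ∀ α : ℝ, 0 < α → ∃ N₀ : ℕ, ∀ s : ℤ, s = 1 ∨ s = -1 →
      ∀ (S : Set ℤ) (δ : ℝ), Invariant S → HasDensity s S δ → ∀ N P r : ℕ, N₀ ≤ N →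
      (N : ℝ) ^ α ≤ P → (P : ℝ) ≤ (N : ℝ) ^ ϑ → 1 ≤ r → (r : ℝ) ≤ (N : ℝ) ^ ϑ →
      ∀ u v : ℕ → ℂ, (∀ a, ‖u a‖ ≤ 1) → (∀ b, ‖v b‖ ≤ 1) →
      ‖∑ a ∈ Finset.Ioc P (2 * P), ∑ b ∈ Finset.Icc 1 N,
        u a * v b * ((S.indicator (fun _ => (1 : ℝ)) (s * (r * a * b : ℕ)) - δ : ℝ) : ℂ)‖ ≤ ε * (P * N)) ∧
    -- patterns of sums and products
    (∀ (k : ℕ) (ε : ℝ), 0 < ε → ∃ ϑ : ℝ, 0 < ϑ ∧ ∀ α : ℝ, 0 < α → ∃ N₀ : ℕ, ∀ P : Fin k → ℕ,
      (∀ i, N₀ ≤ P i) → (∀ i j, i < j → (P j : ℝ) ^ α ≤ P i ∧ (P i : ℝ) ≤ (P j : ℝ) ^ ϑ) →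
      ∀ (s : Fin k → ℤ) (S : Fin k → Set ℤ) (δ : Fin k → ℝ) (t : Fin k → Fin k → ℤ)
        (U : Fin k → Fin k → Set ℤ) (η : Fin k → Fin k → ℝ),
      (∀ i, s i = 1 ∨ s i = -1) → (∀ i j, t i j = 1 ∨ t i j = -1) → (∀ i, Invariant (S i)) →
      (∀ i j, Invariant (U i j)) → (∀ i, HasDensity (s i) (S i) (δ i)) →
      (∀ i j, HasDensity (t i j) (U i j) (η i j)) →
      |((Pattern P s S t U).ncard : ℝ) -
        ((∏ i, δ i) * ∏ e : Fin k × Fin k with e.1 < e.2, η e.1 e.2) * ∏ i, (P i : ℝ)| ≤ ε * ∏ i, (P i : ℝ)) ∧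
    -- three invariant sets and products
    (∀ (c : ℤ) (S₁ S₂ S₃ : Set ℤ), Invariant S₁ → Invariant S₂ → Invariant S₃ →
      (∃ x ∈ S₁, ∃ y ∈ S₂, ∃ z ∈ S₃, 0 < c * x * y * z) →
      ¬ Rare {p : ℤ × ℤ | p.1 ∈ S₁ ∧ p.2 ∈ S₂ ∧ c * p.1 * p.2 ∈ S₃}) ∧
    -- the problem and multiplication
    ((∀ x : ℤ, Reaches x) ↔ ∀ x y : ℤ, Reaches x → Reaches y → Reaches (x * y)) ∧
    ((∀ x : ℤ, Reaches x) ↔ ∀ x y : ℤ, x ≠ 0 → Reaches x → Reaches (x * y) → Reaches y) ∧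
    ((∀ x : ℤ, Reaches x) ↔ Rare {p : ℤ × ℤ | Reaches p.1 ∧ Reaches p.2 ∧ ¬ Reaches (p.1 * p.2)}) ∧
    ((∀ x : ℤ, Reaches x) ↔ Rare {p : ℤ × ℤ | Reaches p.1 ∧ ¬ Reaches p.2 ∧ Reaches (p.1 * p.2)}) ∧
    (∀ w : ℤ, 0 < w → ((∀ x : ℤ, 0 < x → ∃ k : ℕ, C^[k] x = 1) ↔
      ∀ x y : ℤ, Merge x w → Merge y w → Merge (x * y) w)) := by
  refine ⟨fun ε hε => bilinear hε, fun k ε hε => pattern k hε, ?_, ?_, ?_, ?_, ?_, fun w hw => main_class hw⟩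
  · rintro c S₁ S₂ S₃ h₁ h₂ h₃ ⟨x, hx, y, hy, z, hz, h⟩
    exact not_rare h₁ h₂ h₃ hx hy hz h
  · refine ⟨fun h x y _ _ => h _, fun h => main_rare (rare_empty ?_)⟩
    ext p
    simp only [Set.mem_ofPred_eq, Set.mem_empty_iff_false, iff_false, not_and, not_not]
    exact fun h1 h2 => h _ _ h1 h2
  · refine ⟨fun h x y _ _ _ => h _, fun h => ?_⟩
    intro z
    by_contra hz
    have hz0 : z ≠ 0 := by rintro rfl; exact hz reaches_zero
    have key : ∀ y : ℤ, Reaches y → 0 < z * y → False := by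
      intro y hy hyz
      have hnr := not_rare (c := 1) (x := 1) reaches_inv (compl_inv reaches_inv) reaches_inv reaches_one hz hy
        (by simpa using hyz)
      apply hnr
      -- only pairs with `x = 0` could occur, and these are not counted
      intro ϑ hϑ
      obtain ⟨α, hα, H⟩ := rare_empty (E := ∅) rfl ϑ hϑ
      refine ⟨α, hα, fun ε hε N0 => ?_⟩
      obtain ⟨N, P, hN, hP1, hP2, hle⟩ := H ε hε N0
      refine ⟨N, P, hN, hP1, hP2, ?_⟩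
      refine le_trans (le_of_eq ?_) hle
      congr 2
      ext p
      simp only [Set.mem_ofPred_eq, Set.mem_compl_iff, Set.mem_empty_iff_false, false_and, iff_false, not_and,
        one_mul]
      rintro ⟨h1, h2, h3⟩ h4
      exfalso
      have hp : p.1 ≠ 0 := by
        intro h0
        rw [h0, abs_zero] at h4
        omega
      exact h2 (h _ _ hp h1 h3)
    rcases lt_or_gt_of_ne hz0 with h0 | h0
    · exact key (-1) reaches_neg_one (by linarith)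
    · exact key 1 reaches_one (by linarith)
  · refine ⟨fun h => rare_empty ?_, fun h => main_rare h⟩
    ext p
    simp only [Set.mem_ofPred_eq, Set.mem_empty_iff_false, iff_false, not_and, not_not]
    exact fun _ _ => h _
  · refine ⟨fun h => rare_empty ?_, fun h => main_div h⟩
    ext p
    simp only [Set.mem_ofPred_eq, Set.mem_empty_iff_false, iff_false, not_and]
    exact fun _ h2 => absurd (h _) h2

end Pool.Agent.Results.MP_d02c56_nt.SumsAndProducts
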